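import Pool.Agent.LibOL95.Fin

/-! A local criterion for `m(F) = k(F)`. -/

open Pool.FS95

namespace Pool.Agent.Results.MP_a4c8ee_al.LocalCriterion

/-- Let `F` be a saturated fusion system on a finite `ℓ`-group `S` such that for every `F`-centric `F`-radical subgroup `Q` and
every subgroup `B` of `Out_F(Q)` without non-trivial normal `ℓ`-subgroup at least one of the following holds:
(a) `ℓ²` does not divide `|B|`;
(b) `B` fixes as many irreducible characters of `Q` as conjugacy classes of `Q`;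
(c) `B` has a normal `ℓ'`-subgroup with cyclic quotient of `ℓ`-power order;
(d) all subgroups of `B` satisfy Alperin's weight conjecture (number form).
Then `m(F) = k(F)`. In particular `m(F) = k(F)` for all saturated `F` with `ℓ² ∤ |Out_F(Q)|` for all centric radical `Q`. -/
theorem result (ℓ : ℕ) (hℓ : ℓ.Prime) (k : Type) [Field k] [IsAlgClosed k] [CharP k ℓ]
    (S : Type) [Group S] [Finite S] (hS : IsPGroup ℓ S) (F : FusionSystem S) (hF : F.Saturated ℓ)
    (h : ∀ Q : Subgroup S, F.Centric Q → F.Radical ℓ Q → ∀ B : Subgroup (F.OutF Q), OTriv ℓ B →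
      ¬ ℓ ^ 2 ∣ Nat.card B ∨ SameFix (F.AutF Q) B ∨ NilCyc ℓ B ∨ ∀ K ≤ B, AWCfor ℓ k K) :
    F.m ℓ k = F.k ℓ k := by
  have : Fact ℓ.Prime := ⟨hℓ⟩
  refine m_eq_k_of_local hS hF k (fun Q hQ hr B hB => ?_)
  rcases h Q hQ hr B hB with h1 | h1 | h1 | h1
  · right
    intro K hK
    refine Pool.OL95.awc_of_not_sq_dvd ℓ k K (fun hd => h1 (hd.trans ?_))
    exact Subgroup.card_dvd_of_le hK
  · exact Or.inl h1
  · right
    intro K hK
    have h2 : NilCyc ℓ ↥(K.subgroupOf B) := nilCyc_sub ℓ ↥B h1 (K.subgroupOf B)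
    have h3 := awc_of_nilCyc ℓ k _ ↥(K.subgroupOf B) rfl h2
    exact awc_iso ℓ k _ _ ⟨Subgroup.subgroupOfEquivOfLe hK⟩ h3
  · exact Or.inr h1

end Pool.Agent.Results.MP_a4c8ee_al.LocalCriterion
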