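import Pool.Agent.LibFG56.T

/-! The equality `m(F) = k(F)` for all saturated fusion systems at `ℓ`, the same equality for the fusion systems of the groups
`V ⋊ H` with `V` a faithful `𝔽_ℓ H`-module, and Alperin's weight conjecture (number form) for all finite groups at `ℓ` are
equivalent. -/

open Pool.FS95

namespace Pool.Agent.Results.MP_a4c8ee_al.WeightEquivalence

/-- Let `ℓ` be a prime and `k` an algebraically closed field of characteristic `ℓ`. The following are equivalent:
1. `m(F) = k(F)` for every saturated fusion system `F` on a finite `ℓ`-group;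
2. `m(F) = k(F)` for the fusion systems `F = F_S(V ⋊ H)` of the semidirect products of a finite group `H` and a finite elementary
   abelian `ℓ`-group `V` on which `H` acts faithfully;
3. Alperin's weight conjecture (number form) holds for every finite group `G`: the number of `ℓ`-regular classes of `G` is the
   sum of `z(k N_G(Q)/Q)` over the `ℓ`-subgroups `Q` of `G` up to conjugacy. -/
theorem result (ℓ : ℕ) (hℓ : ℓ.Prime) (k : Type) [Field k] [IsAlgClosed k] [CharP k ℓ] :
    List.TFAE [
      ∀ (S : Type) [Group S] [Finite S] (F : FusionSystem S), IsPGroup ℓ S → F.Saturated ℓ →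
        F.m ℓ k = F.k ℓ k,
      ∀ (H V : Type) [Group H] [Finite H] [CommGroup V] [Finite V] (φ : H →* MulAut V),
        Function.Injective φ → (∀ v : V, v ^ ℓ = 1) → ∀ S : Sylow ℓ (V ⋊[φ] H),
          (grpFS (S : Subgroup (V ⋊[φ] H))).m ℓ k = (grpFS (S : Subgroup (V ⋊[φ] H))).k ℓ k,
      ∀ (G : Type) [Group G] [Finite G], AWCfor ℓ k G] := by
  have : Fact ℓ.Prime := ⟨hℓ⟩
  exact m_eq_k_tfae ℓ k

end Pool.Agent.Results.MP_a4c8ee_al.WeightEquivalence
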